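import Pool.Agent.Helper6_TBP.Main

/-!
# Integers that are barriers for powers of the divisor function

Q1 asks for an integer `n > 24` with `m + τ(m) ≤ n + 2` for all `1 ≤ m < n`.

THEOREM.  For every exponent `0 < β < 1 / (e log 2) = 0.5307..` there is a constant `C` such that
infinitely many `n` satisfy `m + τ(m) ^ β ≤ n + C` for all `1 ≤ m < n`.

Equivalent form (`power_form`): for every `B > e log 2 = 1.884..` there is `C` with
`τ(n - k) ≤ C k ^ B` for all `1 ≤ k < n`, for infinitely many `n`.  Consequence with the constant of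
Q1 (`constant_two`): there is `β > 0` such that infinitely many `n` satisfy `m + τ(m) ^ β ≤ n + 2`
for all `1 ≤ m < n`.

Proof.  `n` is divisible by a high power of every prime up to `2 ^ J`, where `log n` is about
`J 2 ^ J`.  A Brun–Hooley sieve of growing dimension removes from the shifts `n - k` the primes up
to levels which decrease with `k` (`⌊2 ^ (θ j)⌋` shifts are sieved up to `n ^ (c / 2 ^ j)`, `θ < 1`),
so that the cost converges.  For every `k` the mean of `τ ^ (1 / log 2)` (the function with value `e`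
at the primes) over the sieve set is bounded by divisor sums over `d ≤ m ^ (3 / 4)`, and the sum over
`k` of the resulting tail bounds converges exactly for `B > e log 2`.
-/

namespace Pool.Agent.Results.MP_ba39b0_nt.BarrierExponent

/-- Power form: for every `B > e log 2` there is `C` such that `τ(n - k) ≤ C k ^ B` for all
`1 ≤ k < n`, for infinitely many `n`. -/
theorem power_form : ∀ B : ℝ, Real.exp 1 * Real.log 2 < B → ∃ C : ℝ, 0 < C ∧
    {n : ℕ | ∀ k : ℕ, 1 ≤ k → k < n → ((n - k).divisors.card : ℝ) ≤ C * (k : ℝ) ^ B}.Infinite :=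
  Pool.Agent.Helper6_TBP.power_form Pool.Agent.Helper6_TBP.fin_all

/-- With the constant of Q1: there is `β > 0` such that infinitely many `n` satisfy
`m + τ(m) ^ β ≤ n + 2` for all `1 ≤ m < n`. -/
theorem constant_two : ∃ β : ℝ, 0 < β ∧
    {n : ℕ | ∀ m : ℕ, 1 ≤ m → m < n → (m : ℝ) + (m.divisors.card : ℝ) ^ β ≤ n + 2}.Infinite :=
  Pool.Agent.Helper6_TBP.constant_two Pool.Agent.Helper6_TBP.fin_all

/-- For every `0 < β < 1 / (e log 2)` there is a constant `C` such that infinitely many `n` satisfy
`m + τ(m) ^ β ≤ n + C` for all `1 ≤ m < n`. -/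
theorem result : ∀ β : ℝ, 0 < β → β < 1 / (Real.exp 1 * Real.log 2) →
    ∃ C : ℝ, 0 < C ∧
      {n : ℕ | ∀ m : ℕ, 1 ≤ m → m < n →
        (m : ℝ) + (m.divisors.card : ℝ) ^ β ≤ n + C}.Infinite :=
  Pool.Agent.Helper6_TBP.bet_all

end Pool.Agent.Results.MP_ba39b0_nt.BarrierExponent
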