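import Pool.Agent.Helper6_TBP.MainC

/-!
# Integers `n` for which nearly all shifts satisfy the inequality of Q1

Q1 asks for an integer `n > 24` with `m + τ(m) ≤ n + 2` for all `1 ≤ m < n`, that is
`τ(n - k) ≤ k + 2` for all `1 ≤ k < n`.

THEOREM.  Let `log 2 < B ≤ e log 2`, `x = B / log 2` and `h = x log x - x + 1` (so `0 < h ≤ 1`).  For
every `η > 1 - h` there is a constant `C` such that for infinitely many `n` the following holds for
every `K ≥ 1`: at most `C K ^ η` of the shifts `k ≤ K`, `k < n` have `τ(n - k) > k ^ B`.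

The case `B = 1` (theorem `unit_exponent`): for every `η > (1 + log log 2) / log 2 = 0.9139..` there
is `C` such that for infinitely many `n`, for every `K ≥ 1`, at most `C K ^ η` of the integers
`n - K ≤ m < n` violate `m + τ(m) ≤ n`.  (For most integers `n` nearly all `m` between
`n - (log n) ^ 0.69` and `n` violate it.)

Proof: the sieve set of `BarrierExponent` (shifts `n - k` sieved up to levels which decrease with
`k`), the mean value of `τ ^ r` with `2 ^ r = x` over it, and one weighted average over `k`.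
-/

namespace Pool.Agent.Results.MP_ba39b0_nt.MostShifts

open Finset

/-- The case `B = 1`. -/
theorem unit_exponent : ∀ η : ℝ, (1 + Real.log (Real.log 2)) / Real.log 2 < η →
    ∃ C : ℝ, 0 < C ∧ {n : ℕ | ∀ K : ℕ, 1 ≤ K →
      (((Ico 1 n).filter (fun m : ℕ => n ≤ m + K ∧ n < m + m.divisors.card)).card : ℝ)
        ≤ C * (K : ℝ) ^ η}.Infinite :=
  Pool.Agent.Helper6_TBP.unit_exponent Pool.Agent.Helper6_TBP.fm2_all

/-- For `log 2 < B ≤ e log 2`, `x = B / log 2` and every `η > 1 - (x log x - x + 1)` there is `C`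
such that for infinitely many `n`, for every `K ≥ 1`, at most `C K ^ η` of the shifts `1 ≤ k ≤ K`,
`k < n` satisfy `τ(n - k) > k ^ B`. -/
theorem result : ∀ B η : ℝ, Real.log 2 < B → B ≤ Real.exp 1 * Real.log 2 →
    1 - ((B / Real.log 2) * Real.log (B / Real.log 2) - B / Real.log 2 + 1) < η →
    ∃ C : ℝ, 0 < C ∧
      {n : ℕ | ∀ K : ℕ, 1 ≤ K →
        (((Icc 1 K).filter
          (fun k : ℕ => k < n ∧ (k : ℝ) ^ B < ((n - k).divisors.card : ℝ))).card : ℝ)
          ≤ C * (K : ℝ) ^ η}.Infinite :=
  Pool.Agent.Helper6_TBP.fm2_all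

end Pool.Agent.Results.MP_ba39b0_nt.MostShifts
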