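import Pool.Agent.Helper46_MNO.LowHalf
import Pool.Agent.Helper46_MNO.UpHalf

/-!
# The normal order of `max_{m < n} (m + τ(m)) - n`

Let `c = 4.311...` be the root `c > 2` of `c log (2 e / c) = 1` (the constant of the height of random
binary search trees). For almost all `n`, `max_{m < n} (m + τ(m)) = n + (log n)^(c log 2 + o(1))`:
for every `ε > 0` there is `ρ > 0` such that for all large `X` all but at most `X (log X)^(-ρ)` of the
integers `1 ≤ n ≤ X` have some `m < n` with `m + τ(m) ≥ n + (log n)^(c log 2 - ε)`, and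
`m + τ(m) ≤ n + (log n)^(c log 2 + ε)` for all `1 ≤ m < n`.
-/

namespace Pool.Agent.Results.MP_ba39b0_nt.NormalOrder

open Pool.Agent.Helper46_MNO Filter

theorem result : ∃ c : ℝ, 4.31 < c ∧ c < 4.32 ∧ c * Real.log (2 * Real.exp 1 / c) = 1 ∧
    (∀ c' : ℝ, 2 < c' → c' * Real.log (2 * Real.exp 1 / c') = 1 → c' = c) ∧
    ∀ ε : ℝ, 0 < ε → ∃ ρ : ℝ, 0 < ρ ∧ ∀ᶠ X : ℕ in atTop,
      (({n : ℕ | 1 ≤ n ∧ n ≤ X ∧ ¬ (
          (∃ m : ℕ, 1 ≤ m ∧ m < n ∧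
            (n : ℝ) + (Real.log n) ^ (c * Real.log 2 - ε) ≤ m + (m.divisors.card : ℝ)) ∧
          (∀ m : ℕ, 1 ≤ m → m < n →
            (m : ℝ) + (m.divisors.card : ℝ) ≤ n + (Real.log n) ^ (c * Real.log 2 + ε)))}.ncard
        : ℕ) : ℝ) ≤ X * (Real.log X) ^ (-ρ) := by
  classical
  obtain ⟨c, h1, h2, h3⟩ := exists_c
  have hc2 : (2:ℝ) < c := by linarith
  refine ⟨c, h1, h2, h3, fun c' hc' h' => unique_c hc' hc2 h' h3, fun ε hε => ?_⟩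
  obtain ⟨ρ₁, hρ₁, hlow⟩ := low_half hc2 h3 hε
  obtain ⟨ρ₂, hρ₂, hup⟩ := up_half hc2 h3 hε
  set ρ : ℝ := min ρ₁ ρ₂ / 2 with hρ
  have hm : 0 < min ρ₁ ρ₂ := lt_min hρ₁ hρ₂
  refine ⟨ρ, by positivity, ?_⟩
  have hlog : Tendsto (fun X : ℕ => Real.log (X : ℝ)) atTop atTop :=
    Real.tendsto_log_atTop.comp tendsto_natCast_atTop_atTop
  have hpow : ∀ᶠ X : ℕ in atTop, 2 ≤ (Real.log (X : ℝ)) ^ ρ :=
    ((tendsto_rpow_atTop (by positivity : 0 < ρ)).comp hlog).eventually_ge_atTop 2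
  filter_upwards [hlow, hup, hpow, hlog.eventually_ge_atTop 1] with X hX1 hX2 hX3 hX4
  have hsub : {n : ℕ | 1 ≤ n ∧ n ≤ X ∧ ¬ (
          (∃ m : ℕ, 1 ≤ m ∧ m < n ∧
            (n : ℝ) + (Real.log n) ^ (c * Real.log 2 - ε) ≤ m + (m.divisors.card : ℝ)) ∧
          (∀ m : ℕ, 1 ≤ m → m < n →
            (m : ℝ) + (m.divisors.card : ℝ) ≤ n + (Real.log n) ^ (c * Real.log 2 + ε)))} ⊆
      (((Finset.Icc 1 X).filter fun n => ¬ LowOK (c * Real.log 2 - ε) n) ∪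
        ((Finset.Icc 1 X).filter fun n => ¬ UpOK (c * Real.log 2 + ε) n) : Finset ℕ) := by
    rintro n ⟨hn1, hn2, hn3⟩
    rw [Finset.mem_coe, Finset.mem_union, Finset.mem_filter, Finset.mem_filter, Finset.mem_Icc]
    by_cases hL : LowOK (c * Real.log 2 - ε) n
    · exact Or.inr ⟨⟨hn1, hn2⟩, fun hU => hn3 ⟨hL, hU⟩⟩
    · exact Or.inl ⟨⟨hn1, hn2⟩, hL⟩
  have hcard := Set.ncard_le_ncard hsub (Finset.finite_toSet _)
  rw [Set.ncard_coe_finset] at hcard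
  have hcard2 := hcard.trans (Finset.card_union_le _ _)
  have hcard3 : (({n : ℕ | 1 ≤ n ∧ n ≤ X ∧ ¬ (
          (∃ m : ℕ, 1 ≤ m ∧ m < n ∧
            (n : ℝ) + (Real.log n) ^ (c * Real.log 2 - ε) ≤ m + (m.divisors.card : ℝ)) ∧
          (∀ m : ℕ, 1 ≤ m → m < n →
            (m : ℝ) + (m.divisors.card : ℝ) ≤ n + (Real.log n) ^ (c * Real.log 2 + ε)))}.ncard
        : ℕ) : ℝ) ≤ (Real.log X) ^ (-ρ₁) * X + (Real.log X) ^ (-ρ₂) * X := by
    refine le_trans ?_ (add_le_add hX1 hX2)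
    exact_mod_cast hcard2
  refine hcard3.trans ?_
  have hL0 : (0:ℝ) < Real.log X := by linarith
  have e1 : (Real.log X) ^ (-ρ₁) ≤ (Real.log X) ^ (-(2 * ρ)) := by
    apply Real.rpow_le_rpow_of_exponent_le hX4
    have : min ρ₁ ρ₂ ≤ ρ₁ := min_le_left _ _
    linarith
  have e2 : (Real.log X) ^ (-ρ₂) ≤ (Real.log X) ^ (-(2 * ρ)) := by
    apply Real.rpow_le_rpow_of_exponent_le hX4
    have : min ρ₁ ρ₂ ≤ ρ₂ := min_le_right _ _
    linarith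
  have e3 : 2 * (Real.log X) ^ (-(2 * ρ)) ≤ (Real.log X) ^ (-ρ) := by
    have e4 : (Real.log X) ^ (-ρ) = (Real.log X) ^ ρ * (Real.log X) ^ (-(2 * ρ)) := by
      rw [← Real.rpow_add hL0]
      congr 1
      ring
    rw [e4]
    exact mul_le_mul_of_nonneg_right hX3 (Real.rpow_nonneg hL0.le _)
  have hX0 : (0:ℝ) ≤ (X:ℝ) := Nat.cast_nonneg X
  have e5 : (Real.log X) ^ (-ρ₁) + (Real.log X) ^ (-ρ₂) ≤ (Real.log X) ^ (-ρ) := by linarith
  have e6 := mul_le_mul_of_nonneg_right e5 hX0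
  linarith

end Pool.Agent.Results.MP_ba39b0_nt.NormalOrder
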