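import Pool.Agent.Helper45_DivisorSieve.Final

/-!
# Admissible integers are very rare

For every fixed `a < log 2 / (1 + log 2) = 0.409...` and all large `X`, at most
`X exp(-(log X)^a)` integers `n ≤ X` satisfy `m + τ(m) ≤ n + (log X)^a` for all `1 ≤ m < n`.
In particular this bounds the number of `n ≤ X` with `max_{m<n} (m + τ(m)) ≤ n + 2`.

Idea of the proof: with `J = ⌈(log X)^a⌉`, the condition forces every `n - j`, `1 ≤ j ≤ J`, to have
at most `1 + log₂ J` prime factors, so that at most `J (1 + log₂ J)` primes `p > J` have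
`n mod p ∈ [1, J]`. A sieve of Brun type with the primes in `(J, exp((log X)^b)]`, `a + b < 1`,
bounds the number of such `n`.
-/

namespace Pool.Agent.Results.MP_ba39b0_nt.SparseAdmissible

open Pool.Agent.Helper45_DivisorSieve

theorem result (a : ℝ) (ha0 : 0 < a) (ha1 : a < Real.log 2 / (1 + Real.log 2)) :
    ∀ᶠ X : ℕ in Filter.atTop,
      (({n : ℕ | 1 ≤ n ∧ n ≤ X ∧ ∀ m : ℕ, 1 ≤ m → m < n →
          (m : ℝ) + (m.divisors.card : ℝ) ≤ n + (Real.log X) ^ a}.ncard : ℕ) : ℝ)
        ≤ X * Real.exp (-(Real.log X) ^ a) := by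
  filter_upwards [lowSet_main a ha0 ha1] with X hX
  have : {n : ℕ | 1 ≤ n ∧ n ≤ X ∧ ∀ m : ℕ, 1 ≤ m → m < n →
      (m : ℝ) + (m.divisors.card : ℝ) ≤ n + (Real.log X) ^ a}
      = ((lowSet X ((Real.log X) ^ a) : Finset ℕ) : Set ℕ) := by
    ext n
    rw [Finset.mem_coe, mem_lowSet, Finset.mem_Icc, Set.mem_ofPred_eq, and_assoc]
    simp only [Finset.mem_Ico, and_imp]
  rw [this, Set.ncard_coe_finset]
  exact hX

end Pool.Agent.Results.MP_ba39b0_nt.SparseAdmissible
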